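import Mathlib

set_option autoImplicit false

namespace Pool.Agent.W736.TA

open Module

/-- Plane geometry: three vectors of the same length in a plane, with the same value of a non-zero
functional, are not all different. -/
theorem three_equal {G : Type} [Fintype G] (V : Submodule ℚ (G → ℚ)) (hV : finrank ℚ V = 2) (e : G)
    (u : G → ℚ) (hu : u ∈ V) (hu1 : u e ≠ 0) (x y z : G → ℚ) (hx : x ∈ V) (hy : y ∈ V) (hz : z ∈ V)
    (hxy : x e = y e) (hxz : x e = z e) (nxy : ∑ h, x h ^ 2 = ∑ h, y h ^ 2)
    (nxz : ∑ h, x h ^ 2 = ∑ h, z h ^ 2) : x = y ∨ x = z ∨ y = z := by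
  classical
  by_cases hne : x = y
  · exact Or.inl hne
  let ev : V →ₗ[ℚ] ℚ := (LinearMap.proj e).comp V.subtype
  have hev : ∀ w : V, ev w = (w : G → ℚ) e := fun w => rfl
  have hfin : Module.Finite ℚ V := Module.finite_of_finrank_pos (by omega)
  have hr : LinearMap.range ev = ⊤ := by
    rw [LinearMap.range_eq_top]
    refine LinearMap.surjective_of_ne_zero ?_
    intro h0
    apply hu1
    have := hev ⟨u, hu⟩
    rw [h0] at this
    simpa using this.symm
  have hk : finrank ℚ (LinearMap.ker ev) = 1 := by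
    have h1 := LinearMap.finrank_range_add_finrank_ker ev
    rw [hr, finrank_top, Module.finrank_self, hV] at h1
    omega
  have hw1 : (⟨x - y, V.sub_mem hx hy⟩ : V) ∈ LinearMap.ker ev := by
    rw [LinearMap.mem_ker, hev]
    simp [hxy]
  have hw2 : (⟨x - z, V.sub_mem hx hz⟩ : V) ∈ LinearMap.ker ev := by
    rw [LinearMap.mem_ker, hev]
    simp [hxz]
  have hne1 : (⟨⟨x - y, V.sub_mem hx hy⟩, hw1⟩ : LinearMap.ker ev) ≠ 0 := by
    intro h
    apply hne
    have h2 : ((⟨⟨x - y, V.sub_mem hx hy⟩, hw1⟩ : LinearMap.ker ev) : V) = ((0 : LinearMap.ker ev) : V) := by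
      rw [h]
    have h3 : x - y = 0 := congrArg (fun w : V => (w : G → ℚ)) h2
    exact sub_eq_zero.1 h3
  obtain ⟨lam, hlam⟩ := (finrank_eq_one_iff_of_nonzero' (K := ℚ) (V := LinearMap.ker ev)
    (⟨⟨x - y, V.sub_mem hx hy⟩, hw1⟩ : LinearMap.ker ev) hne1).1 hk
    (⟨⟨x - z, V.sub_mem hx hz⟩, hw2⟩ : LinearMap.ker ev)
  have h4 : lam • (x - y) = x - z :=
    congrArg (fun w : LinearMap.ker ev => ((w : V) : G → ℚ)) hlam
  have h5 : ∀ h, z h = x h - lam * (x h - y h) := by
    intro h
    have := congrFun h4 h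
    simp only [Pi.smul_apply, Pi.sub_apply, smul_eq_mul] at this
    linarith
  have h6 : ∑ h, (x h - y h) ^ 2 = 2 * ∑ h, x h * (x h - y h) := by
    have : ∑ h, (x h - y h) ^ 2 = 2 * ∑ h, x h * (x h - y h) - (∑ h, x h ^ 2 - ∑ h, y h ^ 2) := by
      rw [Finset.mul_sum, ← Finset.sum_sub_distrib, ← Finset.sum_sub_distrib]
      refine Finset.sum_congr rfl fun h _ => ?_
      ring
    rw [this, nxy]
    ring
  have h7 : lam ^ 2 * ∑ h, (x h - y h) ^ 2 = 2 * lam * ∑ h, x h * (x h - y h) := by
    have : lam ^ 2 * ∑ h, (x h - y h) ^ 2 =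
        2 * lam * ∑ h, x h * (x h - y h) - (∑ h, x h ^ 2 - ∑ h, z h ^ 2) := by
      rw [Finset.mul_sum, Finset.mul_sum, ← Finset.sum_sub_distrib, ← Finset.sum_sub_distrib]
      refine Finset.sum_congr rfl fun h _ => ?_
      rw [h5 h]
      ring
    rw [this, nxz]
    ring
  have h8 : 0 < ∑ h, (x h - y h) ^ 2 := by
    obtain ⟨h, hh⟩ := Function.ne_iff.1 hne
    refine Finset.sum_pos' (fun i _ => sq_nonneg _) ⟨h, Finset.mem_univ _, ?_⟩
    exact sq_pos_of_ne_zero (sub_ne_zero.2 hh)
  have h9 : lam * (lam - 1) * ∑ h, (x h - y h) ^ 2 = 0 := by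
    have : lam * (lam - 1) * ∑ h, (x h - y h) ^ 2 =
        lam ^ 2 * ∑ h, (x h - y h) ^ 2 - lam * ∑ h, (x h - y h) ^ 2 := by ring
    rw [this, h7, h6]
    ring
  rcases mul_eq_zero.1 h9 with h10 | h10
  · rcases mul_eq_zero.1 h10 with h11 | h11
    · right; left
      funext h
      rw [h5 h, h11]
      ring
    · right; right
      funext h
      rw [h5 h, sub_eq_zero.1 h11]
      ring
  · exact absurd h10 h8.ne'

/-- Eight points. -/
theorem rank4_core {G X : Type} [Group G] [Fintype G] [Fintype X] [MulAction G X] (D : Subgroup G)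
    (ε : X → ℤ) (nf : X → G → ℤ)
    (hnf : ∀ x g, ∃ dec : DecidablePred (fun d : G => d ∈ D),
      nf x g = ∑ d : G, @ite ℤ (d ∈ D) (dec d) (ε (d • g • x)) 0)
    (trans : ∀ x y : X, ∃ g : G, g • x = y)
    (sign : ∀ x, ε x = 1 ∨ ε x = -1) (hcard : Fintype.card X = 8)
    (hinj : Function.Injective nf) :
    finrank ℚ (Submodule.span ℚ (Set.range fun x : X => fun g : G => (nf x g : ℚ))) ≠ 2 := by
  classical
  intro hV
  set V := Submodule.span ℚ (Set.range fun x : X => fun g : G => (nf x g : ℚ)) with hVdef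
  have nf_eq : ∀ x g, nf x g = ∑ d : G, if d ∈ D then ε (d • g • x) else 0 := by
    intro x g
    obtain ⟨dec, h⟩ := hnf x g
    rw [h]
    refine Finset.sum_congr rfl fun d _ => ?_
    congr
  have mem : ∀ x : X, (fun g : G => (nf x g : ℚ)) ∈ V := fun x =>
    Submodule.subset_span ⟨x, rfl⟩
  have shift : ∀ (x : X) (g h : G), nf (g • x) h = nf x (h * g) := by
    intro x g h
    rw [nf_eq, nf_eq]
    simp only [mul_smul]
  have norm : ∀ x y : X, ∑ h, (nf x h : ℚ) ^ 2 = ∑ h, (nf y h : ℚ) ^ 2 := by
    intro x y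
    obtain ⟨g, rfl⟩ := trans x y
    simp only [shift]
    exact (Equiv.sum_comp (Equiv.mulRight g) fun h => (nf x h : ℚ) ^ 2).symm
  -- the functional is not zero
  have hX : 1 < Fintype.card X := by omega
  obtain ⟨x₀, y₀, hxy₀⟩ := Fintype.one_lt_card_iff.1 hX
  have hex : ∃ u : X, (nf u 1 : ℚ) ≠ 0 := by
    by_contra hcon
    push Not at hcon
    apply hxy₀
    apply hinj
    funext g
    have h1 : ∀ x : X, nf x g = 0 := by
      intro x
      have h2 := hcon (g • x)
      rw [shift, one_mul] at h2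
      exact_mod_cast h2
    rw [h1, h1]
  obtain ⟨u, hu⟩ := hex
  -- values at one
  have dshift : ∀ (x : X) (d : G), d ∈ D → nf (d • x) 1 = nf x 1 := by
    intro x d hd
    rw [nf_eq, nf_eq]
    simp only [one_smul]
    rw [← Equiv.sum_comp (Equiv.mulRight d) fun e => if e ∈ D then ε (e • x) else 0]
    refine Finset.sum_congr rfl fun e _ => ?_
    have h1 : (Equiv.mulRight d) e = e * d := rfl
    rw [h1, mul_smul]
    have h2 : e * d ∈ D ↔ e ∈ D := D.mul_mem_cancel_right hd
    simp only [h2]
  have three : ∀ x y z : X, nf x 1 = nf y 1 → nf x 1 = nf z 1 → x = y ∨ x = z ∨ y = z := by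
    intro x y z hxy hxz
    have key := three_equal V hV 1 (fun g => (nf u g : ℚ)) (mem u) hu (fun g => (nf x g : ℚ))
      (fun g => (nf y g : ℚ)) (fun g => (nf z g : ℚ)) (mem x) (mem y) (mem z)
      (by exact_mod_cast hxy) (by exact_mod_cast hxz) (norm x y) (norm x z)
    have cast : ∀ x y : X, (fun g : G => (nf x g : ℚ)) = (fun g : G => (nf y g : ℚ)) → x = y := by
      intro x y h
      apply hinj
      funext g
      exact_mod_cast congrFun h g
    rcases key with h | h | h
    · exact Or.inl (cast _ _ h)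
    · exact Or.inr (Or.inl (cast _ _ h))
    · exact Or.inr (Or.inr (cast _ _ h))
  set N : ℤ := ∑ d : G, if d ∈ D then 1 else 0 with hN
  have vals : ∀ x : X, nf x 1 ∈ ({N, -N, 0} : Finset ℤ) := by
    intro x
    by_cases hc : ∀ d ∈ D, ε (d • x) = ε x
    · have h1 : nf x 1 = ε x * N := by
        rw [nf_eq, hN, Finset.mul_sum]
        refine Finset.sum_congr rfl fun d _ => ?_
        rw [one_smul]
        split_ifs with hd
        · rw [hc d hd, mul_one]
        · rw [mul_zero]
      rcases sign x with h2 | h2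
      · rw [h1, h2]; simp
      · rw [h1, h2]; simp
    · push Not at hc
      obtain ⟨d₀, hd₀, hne⟩ := hc
      have hneg : ε (d₀ • x) = -ε x := by
        rcases sign (d₀ • x) with h1 | h1 <;> rcases sign x with h2 | h2 <;> rw [h1, h2] at hne ⊢
        · exact absurd rfl hne
        · rfl
        · exact absurd rfl hne
      have hxne : x ≠ d₀ • x := by
        intro h
        apply hne
        rw [← h]
      have horb : ∀ d ∈ D, d • x = x ∨ d • x = d₀ • x := by
        intro d hd
        have := three x (d₀ • x) (d • x) (dshift x d₀ hd₀).symm (dshift x d hd).symm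
        rcases this with h | h | h
        · exact absurd h hxne
        · exact Or.inl h.symm
        · exact Or.inr h.symm
      have hflip : ∀ d ∈ D, ε (d • d₀ • x) = -ε (d • x) := by
        intro d hd
        have h1 := horb d hd
        have h2 : d • d₀ • x = x ∨ d • d₀ • x = d₀ • x := by
          have := horb (d * d₀) (D.mul_mem hd hd₀)
          rwa [mul_smul] at this
        have h3 : d • d₀ • x ≠ d • x := by
          intro h
          exact hxne (MulAction.injective d h).symm
        rcases h1 with h1 | h1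
        · rcases h2 with h2 | h2
          · exact absurd (h2.trans h1.symm) h3
          · rw [h1, h2, hneg]
        · rcases h2 with h2 | h2
          · rw [h1, h2, hneg, neg_neg]
          · exact absurd (h2.trans h1.symm) h3
      have h4 : nf (d₀ • x) 1 = -nf x 1 := by
        rw [nf_eq, nf_eq, ← Finset.sum_neg_distrib]
        refine Finset.sum_congr rfl fun d _ => ?_
        rw [one_smul, one_smul]
        split_ifs with hd
        · exact hflip d hd
        · rw [neg_zero]
      rw [dshift x d₀ hd₀] at h4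
      have h5 : nf x 1 = 0 := by omega
      rw [h5]; simp
  have hpig : ∃ y ∈ ({N, -N, 0} : Finset ℤ), 2 < (Finset.univ.filter fun x : X => nf x 1 = y).card := by
    apply Finset.exists_lt_card_fiber_of_mul_lt_card_of_maps_to (fun x _ => vals x)
    have h1 : ({N, -N, 0} : Finset ℤ).card ≤ 3 := Finset.card_le_three
    rw [Finset.card_univ, hcard]
    omega
  obtain ⟨y, -, hy⟩ := hpig
  obtain ⟨a, ha, b, hb, c, hc, hab, hac, hbc⟩ := Finset.two_lt_card.1 hy
  rw [Finset.mem_filter] at ha hb hc
  rcases three a b c (ha.2.trans hb.2.symm) (ha.2.trans hc.2.symm) with h | h | h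
  · exact hab h
  · exact hac h
  · exact hbc h

end Pool.Agent.W736.TA
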