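import Pool.Agent.W495.TA.Stms
import Pool.Agent.W736.TA.RankFourBase

set_option autoImplicit false

namespace Pool.Agent.W736.TA

theorem rank4 : Pool.Agent.W495.TA.S_rank4 := by
  intro G X _ _ _ _ c hc D ε hε hcard hinj
  exact rank4_core D ε (Pool.Agent.W495.TA.nf D ε) (fun x g => ⟨_, rfl⟩) hc.trans hε.sign hcard hinj

end Pool.Agent.W736.TA
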